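import Pool.Agent.T2H24.AF.Nat

set_option autoImplicit false
set_option linter.unusedSectionVars false
set_option linter.unusedVariables false

/-!
# Bessel's inequality for the averages over linearly disjoint extensions
-/

namespace Pool.Agent.T2H24.AF

open Complex Filter Topology ComplexConjugate NumberField IsDedekindDomain MeasureTheory
  Pool.Agent.W540.BE Pool.Agent.TH553.RS Pool.Agent.TH553.ST Pool.Agent.H341R2
  Pool.Agent.W353.TP Pool.Agent.H126U
open scoped TensorProduct

section

variable {K : Type} [Field K] [NumberField K] {ι : Type} [Fintype ι]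

/-- **Bessel's inequality** -/
theorem bessel_nat {g : HX K → ℝ} (hg : ∃ B, ∀ u, |g u| ≤ B) {V : ℝ}
    (hV : Tendsto (nh fun u => g u ^ 2) atTop (𝓝 V))
    {w : ι → HX K → ℝ} (hw : ∀ i, ∃ C, ∀ u, |w i u| ≤ C) {q : ι → ℝ}
    (hq : ∀ i, Tendsto (nh fun u => w i u * w i u) atTop (𝓝 (q i)))
    (hq' : ∀ i j, i ≠ j → Tendsto (nh fun u => w i u * w j u) atTop (𝓝 0))
    {A : ι → ℕ → ℝ}
    (hA : ∀ i, Tendsto (fun X => A i X - nh (fun u => g u * w i u) X) atTop (𝓝 0))
    {η : ℝ} (hη : 0 < η) : ∀ᶠ X in atTop, ∑ i, A i X ^ 2 / q i ≤ V + η := by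
  classical
  obtain ⟨B, hB⟩ := hg
  choose C hC using hw
  set c : ι → ℕ → ℝ := fun i => nh fun u => g u * w i u with hc
  have hcb : ∀ i X, |c i X| ≤ Module.finrank ℚ K * (B * C i) := by
    intro i X
    refine nh_bd (fun u => ?_) X
    rw [abs_mul]
    exact mul_le_mul (hB u) (hC i u) (abs_nonneg _) ((abs_nonneg _).trans (hB u))
  set t : ι → ℕ → ℝ := fun i X => c i X / q i with ht
  set Q : ι → ι → ℝ := fun i j => if i = j then q i else 0 with hQ
  have hQl : ∀ i j, Tendsto (nh fun u => w i u * w j u) atTop (𝓝 (Q i j)) := by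
    intro i j
    rw [hQ]
    simp only
    split_ifs with h
    · subst h
      exact hq i
    · exact hq' i j h
  -- the inequality at a finite level
  have key : ∀ X, ∑ i, c i X ^ 2 / q i ≤ nh (fun u => g u ^ 2) X +
      ∑ i, ∑ j, t i X * t j X * (nh (fun u => w i u * w j u) X - Q i j) := by
    intro X
    have h1 : 0 ≤ nh (fun u => (g u - ∑ i, t i X * w i u) ^ 2) X := nh_nonneg (fun u => by positivity) X
    have h2 : (fun u => (g u - ∑ i, t i X * w i u) ^ 2) = fun u => (g u ^ 2 -
        ∑ i, (2 * t i X) * (g u * w i u)) + ∑ i, ∑ j, (t i X * t j X) * (w i u * w j u) := by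
      funext u
      have e1 : ∑ i, ∑ j, (t i X * t j X) * (w i u * w j u) =
          (∑ i, t i X * w i u) * ∑ j, t j X * w j u := by
        rw [Finset.sum_mul_sum]
        exact Finset.sum_congr rfl fun i _ => Finset.sum_congr rfl fun j _ => by ring
      have e2 : ∑ i, (2 * t i X) * (g u * w i u) = 2 * g u * ∑ i, t i X * w i u := by
        rw [Finset.mul_sum]
        exact Finset.sum_congr rfl fun i _ => by ring
      rw [e1, e2]
      ring
    rw [h2, nh_add, nh_sub, nh_sum, nh_sum] at h1
    simp only [nh_sum, nh_mul] at h1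
    have e3 : ∑ i, ∑ j, t i X * t j X * (nh (fun u => w i u * w j u) X - Q i j) =
        ∑ i, ∑ j, t i X * t j X * nh (fun u => w i u * w j u) X - ∑ i, c i X ^ 2 / q i := by
      have e4 : ∑ i, c i X ^ 2 / q i = ∑ i, ∑ j, t i X * t j X * Q i j := by
        refine Finset.sum_congr rfl fun i _ => ?_
        rw [Finset.sum_eq_single i]
        · rw [hQ, ht]
          simp only [if_true]
          by_cases h0 : q i = 0
          · rw [h0]
            simp
          · field_simp
        · intro j _ hj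
          rw [hQ]
          simp only [if_neg (Ne.symm hj), mul_zero]
        · intro h
          exact absurd (Finset.mem_univ i) h
      rw [e4, ← Finset.sum_sub_distrib]
      refine Finset.sum_congr rfl fun i _ => ?_
      rw [← Finset.sum_sub_distrib]
      exact Finset.sum_congr rfl fun j _ => by ring
    have e5 : ∑ i, (2 * t i X) * nh (fun u => g u * w i u) X = 2 * ∑ i, c i X ^ 2 / q i := by
      rw [Finset.mul_sum]
      refine Finset.sum_congr rfl fun i _ => ?_
      rw [ht]
      simp only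
      ring
    rw [e3]
    linarith
  -- the limit of the right side
  have htb : ∀ i, ∃ D, ∀ X, |t i X| ≤ D := by
    intro i
    refine ⟨Module.finrank ℚ K * (B * C i) * |q i|⁻¹, fun X => ?_⟩
    change |c i X / q i| ≤ _
    rw [abs_div, div_eq_mul_inv]
    exact mul_le_mul_of_nonneg_right (hcb i X) (inv_nonneg.2 (abs_nonneg _))
  choose D hD using htb
  have hR : Tendsto (fun X => nh (fun u => g u ^ 2) X +
      ∑ i, ∑ j, t i X * t j X * (nh (fun u => w i u * w j u) X - Q i j)) atTop (𝓝 V) := by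
    have h3 : Tendsto (fun X => ∑ i, ∑ j, t i X * t j X * (nh (fun u => w i u * w j u) X - Q i j))
        atTop (𝓝 (∑ i : ι, ∑ j : ι, (0 : ℝ))) := by
      refine tendsto_finsetSum _ fun i _ => tendsto_finsetSum _ fun j _ => ?_
      have h4 : Tendsto (fun X => nh (fun u => w i u * w j u) X - Q i j) atTop (𝓝 0) := by
        have := (hQl i j).sub_const (Q i j)
        rwa [sub_self] at this
      have h5 : Tendsto (fun X => D i * D j * |nh (fun u => w i u * w j u) X - Q i j|) atTop
          (𝓝 0) := by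
        have := h4.abs.const_mul (D i * D j)
        simpa using this
      refine squeeze_zero_norm (fun X => ?_) h5
      rw [Real.norm_eq_abs, abs_mul, abs_mul]
      refine mul_le_mul_of_nonneg_right ?_ (abs_nonneg _)
      exact mul_le_mul (hD i X) (hD j X) (abs_nonneg _) ((abs_nonneg _).trans (hD i X))
    have h6 := hV.add h3
    simpa using h6
  -- the comparison
  have hcmp : Tendsto (fun X => ∑ i, A i X ^ 2 / q i - ∑ i, c i X ^ 2 / q i) atTop (𝓝 0) := by
    have h3 : Tendsto (fun X => ∑ i, (A i X ^ 2 / q i - c i X ^ 2 / q i)) atTop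
        (𝓝 (∑ i : ι, (0 : ℝ))) := by
      refine tendsto_finsetSum _ fun i _ => ?_
      have h4 : Tendsto (fun X => (A i X - c i X) * (A i X - c i X) / q i +
          (2 * c i X / q i) * (A i X - c i X)) atTop (𝓝 0) := by
        have h5 : Tendsto (fun X => (2 * c i X / q i) * (A i X - c i X)) atTop (𝓝 0) := by
          have h6 : Tendsto (fun X => 2 * (D i) * |A i X - c i X|) atTop (𝓝 0) := by
            have := (hA i).abs.const_mul (2 * D i)
            simpa using this
          refine squeeze_zero_norm (fun X => ?_) h6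
          rw [Real.norm_eq_abs, abs_mul]
          refine mul_le_mul_of_nonneg_right ?_ (abs_nonneg _)
          rw [mul_div_assoc, abs_mul, abs_two]
          exact mul_le_mul_of_nonneg_left (hD i X) zero_le_two
        have h7 := (((hA i).mul (hA i)).div_const (q i)).add h5
        simpa using h7
      refine h4.congr fun X => ?_
      ring
    rw [Finset.sum_const_zero] at h3
    refine h3.congr fun X => ?_
    rw [Finset.sum_sub_distrib]
  have h8 := (hcmp.eventually_lt_const (half_pos hη)).and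
    (hR.eventually_lt_const (lt_add_of_pos_right V (half_pos hη)))
  filter_upwards [h8] with X hX
  have := key X
  linarith [hX.1, hX.2]

end

section

variable {K : Type} [Field K] [NumberField K]
variable {G : Type} [Group G] [TopologicalSpace G] [IsTopologicalGroup G] [CompactSpace G]
  [MeasurableSpace G] [BorelSpace G] {x : HeightOneSpectrum (𝓞 K) → G}

theorem bd_f {P : Type} {f : G → ℝ} (hf : Continuous f) (x : P → G) : ∃ B, ∀ p, |f (x p)| ≤ B := by
  obtain ⟨C, hC⟩ := (isCompact_univ (X := G)).exists_bound_of_continuousOn hf.continuousOn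
  exact ⟨C, fun p => hC _ (Set.mem_univ _)⟩

theorem nh_of_mn {g : HeightOneSpectrum (𝓞 K) → ℝ} (hg : ∃ B, ∀ v, |g v| ≤ B) {c : ℝ}
    (h : Tendsto (mn g) atTop (𝓝 c)) : Tendsto (nh fun u => g (kr u)) atTop (𝓝 c) := by
  obtain ⟨B, hB⟩ := hg
  have h1 := h.sub (mn_nh hB)
  rw [sub_zero] at h1
  refine h1.congr fun X => ?_
  ring

variable {F : Type} [Field F] [NumberField F] [Algebra K F] {y : HeightOneSpectrum (𝓞 F) → G}

/-- averages over an extension -/
theorem nh_bc (hbc : BC x y) {f : G → ℝ} (hf : Continuous f)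
    (hcl : ∀ g h, f (h * g * h⁻¹) = f g) :
    Tendsto (fun X => mn (fun w => f (y w)) X - nh (fun u => f (x (kr u)) * cnt K F u) X) atTop
      (𝓝 0) := by
  classical
  obtain ⟨B, hB⟩ := bd_f hf y
  have h1 := mn_nh hB
  have h2 : Tendsto (fun X => nh (fun ψ : HX F => f (y (kr ψ))) X -
      nh (fun ψ : HX F => f (x (kr (rs K ψ)))) X) atTop (𝓝 0) := by
    refine nh_congr ((kr_agree hbc).subset fun ψ hψ h => hψ ?_)
    obtain ⟨k, hk⟩ := h
    rw [hk, hcl]
  have h3 : ∀ X, nh (fun ψ : HX F => f (x (kr (rs K ψ)))) X =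
      nh (fun u => f (x (kr u)) * cnt K F u) X := by
    intro X
    rw [nh_push (K := K)]
    congr 1
    funext u
    unfold cnt push
    rw [Finset.mul_sum]
    refine Finset.sum_congr rfl fun ψ hψ => ?_
    have h3 := (Finset.mem_filter.1 hψ).2
    rw [mul_one]
    have h4 : rs K (⟨u.1, ψ⟩ : HX F) = u := by
      unfold rs
      simp only at h3 ⊢
      rw [h3]
    change f (x (kr (rs K (⟨u.1, ψ⟩ : HX F)))) = _
    rw [h4]
  have h5 := h1.add h2
  rw [add_zero] at h5
  refine h5.congr fun X => ?_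
  rw [← h3]
  ring

/-- the deviation of the average is an inner product -/
theorem A_lim (hbc : BC x y) {f : G → ℝ} (hf : Continuous f)
    (hcl : ∀ g h, f (h * g * h⁻¹) = f g) {I : ℝ} (hI : Tendsto (mn fun v => f (x v)) atTop (𝓝 I)) :
    Tendsto (fun X => (mn (fun w => f (y w)) X - I) -
      nh (fun u => (f (x (kr u)) - I) * (cnt K F u - 1)) X) atTop (𝓝 0) := by
  have h1 := nh_bc hbc hf hcl
  have h2 := nh_of_mn (bd_f hf x) hI
  have h3 := (nh_cnt (K := K) (F := F)).const_mul I
  have h4 := (nh_one (K := K)).const_mul I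
  have h5 := ((h1.add h2).add h3).sub h4
  have h6 := h5.sub_const I
  have e1 : (0 : ℝ) + I + I * 1 - I * 1 - I = 0 := by ring
  rw [e1] at h6
  refine h6.congr fun X => ?_
  have e2 : (fun u : HX K => (f (x (kr u)) - I) * (cnt K F u - 1)) = fun u =>
      ((f (x (kr u)) * cnt K F u - f (x (kr u))) - I * cnt K F u) + I * 1 := by
    funext u
    ring
  rw [e2, nh_add, nh_sub, nh_sub, nh_mul, nh_mul]
  ring

end

section

variable {K : Type} [Field K] [NumberField K]
variable {G : Type} [Group G] [TopologicalSpace G] [IsTopologicalGroup G] [CompactSpace G]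
  [MeasurableSpace G] [BorelSpace G] {μ : Measure G} [IsProbabilityMeasure μ] {x : HeightOneSpectrum (𝓞 K) → G}
  {ι : Type} [Fintype ι] {F : ι → Type} [∀ i, Field (F i)] [∀ i, NumberField (F i)]
  [∀ i, Algebra K (F i)] {y : ∀ i, HeightOneSpectrum (𝓞 (F i)) → G}

/-- **Bessel's inequality for real class functions** -/
theorem bessel_real (hx : ∀ f : G → ℝ, Continuous f → (∀ g h, f (h * g * h⁻¹) = f g) →
      Tendsto (mn fun v => f (x v)) atTop (𝓝 (∫ g, f g ∂μ)))
    (hy : ∀ i, BC x (y i)) (hd : ∀ i j, i ≠ j → nof K (F i) (F j) = 1)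
    {f : G → ℝ} (hf : Continuous f) (hcl : ∀ g h, f (h * g * h⁻¹) = f g) {η : ℝ} (hη : 0 < η) :
    ∀ᶠ X in atTop, ∑ i, (mn (fun w => f (y i w)) X - ∫ g, f g ∂μ) ^ 2 /
      ((nof K (F i) (F i) : ℝ) - 1) ≤ (∫ g, (f g - ∫ g, f g ∂μ) ^ 2 ∂μ) + η := by
  set I : ℝ := ∫ g, f g ∂μ with hI
  have hf2 : Continuous fun g => (f g - I) ^ 2 := (hf.sub continuous_const).pow 2
  have hg : Tendsto (mn fun v => f (x v)) atTop (𝓝 I) := hx f hf hcl
  have h2 : Tendsto (mn fun v => (f (x v) - I) ^ 2) atTop (𝓝 (∫ g, (f g - I) ^ 2 ∂μ)) :=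
    hx (fun g => (f g - I) ^ 2) hf2 fun g h => by rw [hcl]
  have hV := nh_of_mn (bd_f hf2 x) h2
  have hB : ∃ B, ∀ u : HX K, |f (x (kr u)) - I| ≤ B :=
    bd_f (f := fun g => f g - I) (hf.sub continuous_const) fun u : HX K => x (kr u)
  have hgram : ∀ i j, Tendsto (nh fun u : HX K => (cnt K (F i) u - 1) * (cnt K (F j) u - 1)) atTop
      (𝓝 ((nof K (F i) (F j) : ℝ) - 1)) := by
    intro i j
    have h3 := (((nh_cnt2 (K := K) (F := F i) (F' := F j)).sub (nh_cnt (K := K) (F := F i))).sub
      (nh_cnt (K := K) (F := F j))).add (nh_one (K := K))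
    have e1 : (nof K (F i) (F j) : ℝ) - 1 - 1 + 1 = nof K (F i) (F j) - 1 := by ring
    rw [e1] at h3
    refine h3.congr fun X => ?_
    rw [← nh_sub, ← nh_sub, ← nh_add]
    congr 1
    funext u
    ring
  refine bessel_nat (w := fun i u => cnt K (F i) u - 1) hB hV (fun i => ?_) (fun i => hgram i i)
    (fun i j hij => ?_) (fun i => A_lim (hy i) hf hcl hg) hη
  · obtain ⟨C, hC⟩ := (bd_cnt (K := K) (F := F i)).sub (Bd.const 1)
    exact ⟨C, hC⟩
  · have := hgram i j
    rw [hd i j hij, Nat.cast_one, sub_self] at this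
    exact this

end

end Pool.Agent.T2H24.AF
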