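import Pool.Agent.T2H24.AF.Bess

set_option autoImplicit false
set_option linter.unusedSectionVars false
set_option linter.unusedVariables false

/-!
# Bessel's inequality for complex class functions, and the number of exceptions
-/

namespace Pool.Agent.T2H24.AF

open Complex Filter Topology ComplexConjugate NumberField IsDedekindDomain MeasureTheory
  Pool.Agent.W540.BE Pool.Agent.TH553.RS Pool.Agent.TH553.ST Pool.Agent.H341R2
  Pool.Agent.W353.TP Pool.Agent.H126U
open scoped TensorProduct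

section

variable {K : Type} [Field K] [NumberField K]

/-- Cauchy's inequality -/
theorem nh_cs (g w : HX K → ℝ) (X : ℕ) :
    nh (fun u => g u * w u) X ^ 2 ≤ nh (fun u => g u ^ 2) X * nh (fun u => w u ^ 2) X := by
  have h1 : ∀ t : ℝ, 0 ≤ nh (fun u => w u ^ 2) X * (t * t) + (-2 * nh (fun u => g u * w u) X) * t +
      nh (fun u => g u ^ 2) X := by
    intro t
    have h2 : 0 ≤ nh (fun u => (g u - t * w u) ^ 2) X := nh_nonneg (fun u => by positivity) X
    have e1 : (fun u => (g u - t * w u) ^ 2) = fun u => (g u ^ 2 - (2 * t) * (g u * w u)) +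
        (t * t) * w u ^ 2 := by
      funext u
      ring
    rw [e1, nh_add, nh_sub, nh_mul, nh_mul] at h2
    linarith
  have h3 := discrim_le_zero h1
  unfold discrim at h3
  nlinarith

end

section

variable {K : Type} [Field K] [NumberField K]
variable {G : Type} [Group G] [TopologicalSpace G] [IsTopologicalGroup G] [CompactSpace G]
  [MeasurableSpace G] [BorelSpace G] {μ : Measure G} [IsProbabilityMeasure μ]
  {x : HeightOneSpectrum (𝓞 K) → G}
  {F : Type} [Field F] [NumberField F] [Algebra K F] {y : HeightOneSpectrum (𝓞 F) → G}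

/-- if the tensor square is a field, the averages are the same -/
theorem A_zero (hbc : BC x y) {f : G → ℝ} (hf : Continuous f)
    (hcl : ∀ g h, f (h * g * h⁻¹) = f g) {I : ℝ} (hI : Tendsto (mn fun v => f (x v)) atTop (𝓝 I))
    (hd : nof K F F = 1) : Tendsto (fun X => mn (fun w => f (y w)) X - I) atTop (𝓝 0) := by
  obtain ⟨B, hB⟩ : ∃ B, ∀ u : HX K, |f (x (kr u)) - I| ≤ B :=
    bd_f (f := fun g => f g - I) (hf.sub continuous_const) fun u : HX K => x (kr u)
  have hw : Tendsto (nh fun u : HX K => (cnt K F u - 1) ^ 2) atTop (𝓝 0) := by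
    have h3 := (((nh_cnt2 (K := K) (F := F) (F' := F)).sub (nh_cnt (K := K) (F := F))).sub
      (nh_cnt (K := K) (F := F))).add (nh_one (K := K))
    rw [hd] at h3
    have e1 : ((1 : ℕ) : ℝ) - 1 - 1 + 1 = 0 := by norm_num
    rw [e1] at h3
    refine h3.congr fun X => ?_
    rw [← nh_sub, ← nh_sub, ← nh_add]
    congr 1
    funext u
    ring
  have h1 : Tendsto (fun X => nh (fun u : HX K => (f (x (kr u)) - I) * (cnt K F u - 1)) X) atTop
      (𝓝 0) := by
    have h2 : Tendsto (fun X => Real.sqrt ((Module.finrank ℚ K * (B * B)) *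
        nh (fun u : HX K => (cnt K F u - 1) ^ 2) X)) atTop (𝓝 0) := by
      have := (hw.const_mul (Module.finrank ℚ K * (B * B))).sqrt
      simpa using this
    refine squeeze_zero_norm (fun X => ?_) h2
    rw [Real.norm_eq_abs]
    refine Real.abs_le_sqrt ((nh_cs _ _ X).trans ?_)
    refine mul_le_mul_of_nonneg_right ?_ (nh_nonneg (fun u => by positivity) X)
    refine (le_abs_self _).trans (nh_bd (fun u => ?_) X)
    rw [sq, abs_mul]
    exact mul_le_mul (hB u) (hB u) (abs_nonneg _) ((abs_nonneg _).trans (hB u))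
  have h5 := (A_lim hbc hf hcl hI).add h1
  rw [add_zero] at h5
  refine h5.congr fun X => ?_
  ring

/-- the same for complex functions -/
theorem A_zero' (hx : ∀ f : G → ℝ, Continuous f → (∀ g h, f (h * g * h⁻¹) = f g) →
      Tendsto (mn fun v => f (x v)) atTop (𝓝 (∫ g, f g ∂μ)))
    (hbc : BC x y) {f : G → ℂ} (hf : Continuous f)
    (hcl : ∀ g h, f (h * g * h⁻¹) = f g) (hd : nof K F F = 1) :
    Tendsto (fun X => ‖mn (fun w => f (y w)) X - ∫ g, f g ∂μ‖) atTop (𝓝 0) := by
  have hre : Continuous fun g => (f g).re := Complex.continuous_re.comp hf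
  have him : Continuous fun g => (f g).im := Complex.continuous_im.comp hf
  have hcr : ∀ g h, (f (h * g * h⁻¹)).re = (f g).re := fun g h => by rw [hcl]
  have hci : ∀ g h, (f (h * g * h⁻¹)).im = (f g).im := fun g h => by rw [hcl]
  have h1 : Tendsto (fun X => mn (fun w => (f (y w)).re) X - ∫ g, (f g).re ∂μ) atTop (𝓝 0) :=
    A_zero (f := fun g => (f g).re) hbc hre hcr (hx (fun g => (f g).re) hre hcr) hd
  have h2 : Tendsto (fun X => mn (fun w => (f (y w)).im) X - ∫ g, (f g).im ∂μ) atTop (𝓝 0) :=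
    A_zero (f := fun g => (f g).im) hbc him hci (hx (fun g => (f g).im) him hci) hd
  have hint : Integrable f μ := hf.integrable_of_hasCompactSupport
    (HasCompactSupport.of_compactSpace _)
  have e1 : (∫ g, f g ∂μ).re = ∫ g, (f g).re ∂μ := (integral_re hint).symm
  have e2 : (∫ g, f g ∂μ).im = ∫ g, (f g).im ∂μ := (integral_im hint).symm
  have h3 : Tendsto (fun X => |mn (fun w => (f (y w)).re) X - ∫ g, (f g).re ∂μ| +
      |mn (fun w => (f (y w)).im) X - ∫ g, (f g).im ∂μ|) atTop (𝓝 0) := by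
    have := h1.abs.add h2.abs
    simpa using this
  refine squeeze_zero (fun X => norm_nonneg _) (fun X => ?_) h3
  have h4 := Complex.norm_le_abs_re_add_abs_im (mn (fun w => f (y w)) X - ∫ g, f g ∂μ)
  rw [Complex.sub_re, Complex.sub_im, re_mn, im_mn, e1, e2] at h4
  exact h4

end

section

variable {K : Type} [Field K] [NumberField K]
variable {G : Type} [Group G] [TopologicalSpace G] [IsTopologicalGroup G] [CompactSpace G]
  [MeasurableSpace G] [BorelSpace G] {μ : Measure G} [IsProbabilityMeasure μ]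
  {x : HeightOneSpectrum (𝓞 K) → G}
  {ι : Type} [Fintype ι] {F : ι → Type} [∀ i, Field (F i)] [∀ i, NumberField (F i)]
  [∀ i, Algebra K (F i)] {y : ∀ i, HeightOneSpectrum (𝓞 (F i)) → G}

/-- **Bessel's inequality** -/
theorem bessel (hx : ∀ f : G → ℝ, Continuous f → (∀ g h, f (h * g * h⁻¹) = f g) →
      Tendsto (mn fun v => f (x v)) atTop (𝓝 (∫ g, f g ∂μ)))
    (hy : ∀ i, BC x (y i)) (hd : ∀ i j, i ≠ j → nof K (F i) (F j) = 1)
    {f : G → ℂ} (hf : Continuous f) (hcl : ∀ g h, f (h * g * h⁻¹) = f g) {η : ℝ} (hη : 0 < η) :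
    ∀ᶠ X in atTop, ∑ i, ‖mn (fun w => f (y i w)) X - ∫ g, f g ∂μ‖ ^ 2 /
      ((nof K (F i) (F i) : ℝ) - 1) ≤ (∫ g, ‖f g - ∫ g, f g ∂μ‖ ^ 2 ∂μ) + η := by
  have hre : Continuous fun g => (f g).re := Complex.continuous_re.comp hf
  have him : Continuous fun g => (f g).im := Complex.continuous_im.comp hf
  have hint : Integrable f μ := hf.integrable_of_hasCompactSupport
    (HasCompactSupport.of_compactSpace _)
  have e1 : (∫ g, f g ∂μ).re = ∫ g, (f g).re ∂μ := (integral_re hint).symm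
  have e2 : (∫ g, f g ∂μ).im = ∫ g, (f g).im ∂μ := (integral_im hint).symm
  have h1 := bessel_real hx hy hd hre (fun g h => by rw [hcl]) (half_pos hη)
  have h2 := bessel_real hx hy hd him (fun g h => by rw [hcl]) (half_pos hη)
  have e3 : (∫ g, ‖f g - ∫ g, f g ∂μ‖ ^ 2 ∂μ) = (∫ g, ((f g).re - ∫ g, (f g).re ∂μ) ^ 2 ∂μ) +
      ∫ g, ((f g).im - ∫ g, (f g).im ∂μ) ^ 2 ∂μ := by
    rw [← integral_add]
    · refine integral_congr_ae (Eventually.of_forall fun g => ?_)
      simp only
      rw [← Complex.normSq_eq_norm_sq, Complex.normSq_apply, Complex.sub_re, Complex.sub_im, e1, e2]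
      ring
    · exact ((hre.sub continuous_const).pow 2).integrable_of_hasCompactSupport
        (HasCompactSupport.of_compactSpace _)
    · exact ((him.sub continuous_const).pow 2).integrable_of_hasCompactSupport
        (HasCompactSupport.of_compactSpace _)
  filter_upwards [h1, h2] with X h3 h4
  have e4 : ∑ i, ‖mn (fun w => f (y i w)) X - ∫ g, f g ∂μ‖ ^ 2 /
      ((nof K (F i) (F i) : ℝ) - 1) = ∑ i, (mn (fun w => (f (y i w)).re) X -
        ∫ g, (f g).re ∂μ) ^ 2 / ((nof K (F i) (F i) : ℝ) - 1) + ∑ i,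
        (mn (fun w => (f (y i w)).im) X - ∫ g, (f g).im ∂μ) ^ 2 /
          ((nof K (F i) (F i) : ℝ) - 1) := by
    rw [← Finset.sum_add_distrib]
    refine Finset.sum_congr rfl fun i _ => ?_
    rw [← Complex.normSq_eq_norm_sq, Complex.normSq_apply, Complex.sub_re, Complex.sub_im,
      re_mn, im_mn, e1, e2]
    ring
  rw [e3, e4]
  linarith

/-- the number of exceptions for one function -/
theorem count_one (hx : ∀ f : G → ℝ, Continuous f → (∀ g h, f (h * g * h⁻¹) = f g) →
      Tendsto (mn fun v => f (x v)) atTop (𝓝 (∫ g, f g ∂μ)))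
    (hy : ∀ i, BC x (y i)) (hd : ∀ i j, i ≠ j → nof K (F i) (F j) = 1) {R : ℕ}
    (hR : ∀ i, nof K (F i) (F i) ≤ R)
    {f : G → ℂ} (hf : Continuous f) (hcl : ∀ g h, f (h * g * h⁻¹) = f g) {δ : ℝ} (hδ : 0 < δ) :
    ∀ᶠ X in atTop, (Nat.card {i // δ ≤ ‖mn (fun w => f (y i w)) X - ∫ g, f g ∂μ‖} : ℝ) ≤
      R * ((∫ g, ‖f g - ∫ g, f g ∂μ‖ ^ 2 ∂μ) + 1) / δ ^ 2 := by
  classical
  have h1 := bessel hx hy hd hf hcl one_pos
  have h2 : ∀ i, nof K (F i) (F i) = 1 → ∀ᶠ X in atTop,
      ‖mn (fun w => f (y i w)) X - ∫ g, f g ∂μ‖ < δ := fun i hi =>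
    (A_zero' hx (hy i) hf hcl hi).eventually_lt_const hδ
  have h3 : ∀ᶠ X in atTop, ∀ i, nof K (F i) (F i) = 1 →
      ‖mn (fun w => f (y i w)) X - ∫ g, f g ∂μ‖ < δ := by
    rw [eventually_all]
    intro i
    by_cases hi : nof K (F i) (F i) = 1
    · filter_upwards [h2 i hi] with X hX _
      exact hX
    · exact Eventually.of_forall fun X h => absurd h hi
  filter_upwards [h1, h3] with X h4 h5
  set a : ι → ℝ := fun i => ‖mn (fun w => f (y i w)) X - ∫ g, f g ∂μ‖ with ha
  have hnof : ∀ i, 1 ≤ nof K (F i) (F i) := by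
    intro i
    unfold nof
    have : Nonempty (MaximalSpectrum (F i ⊗[K] F i)) := by
      have : Nontrivial (F i ⊗[K] F i) := inferInstance
      infer_instance
    have : Finite (MaximalSpectrum (F i ⊗[K] F i)) := inferInstance
    exact Nat.card_pos
  have hcard : Nat.card {i // δ ≤ a i} = (Finset.univ.filter fun i => δ ≤ a i).card := by
    rw [Nat.card_eq_fintype_card, Fintype.card_subtype]
  rw [hcard, le_div_iff₀ (by positivity)]
  have hR0 : ∀ i ∈ (Finset.univ.filter fun i => δ ≤ a i), δ ^ 2 ≤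
      R * (a i ^ 2 / ((nof K (F i) (F i) : ℝ) - 1)) := by
    intro i hi
    have h6 := (Finset.mem_filter.1 hi).2
    have h7 : nof K (F i) (F i) ≠ 1 := fun h => absurd (h5 i h) (not_lt.2 h6)
    have h8 : (1 : ℝ) < nof K (F i) (F i) := by
      have := hnof i
      exact_mod_cast (by omega : 1 < nof K (F i) (F i))
    have h9 : (nof K (F i) (F i) : ℝ) ≤ R := by exact_mod_cast hR i
    have h10 : (0 : ℝ) < (nof K (F i) (F i) : ℝ) - 1 := by linarith
    have h11 : δ ^ 2 ≤ a i ^ 2 := pow_le_pow_left₀ hδ.le h6 2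
    rw [← mul_div_assoc, le_div_iff₀ h10]
    calc δ ^ 2 * ((nof K (F i) (F i) : ℝ) - 1) ≤ a i ^ 2 * R :=
          mul_le_mul h11 (by linarith) h10.le (by positivity)
      _ = R * a i ^ 2 := mul_comm _ _
  calc ((Finset.univ.filter fun i => δ ≤ a i).card : ℝ) * δ ^ 2
      = ∑ i ∈ Finset.univ.filter (fun i => δ ≤ a i), δ ^ 2 := by
        rw [Finset.sum_const, nsmul_eq_mul]
    _ ≤ ∑ i ∈ Finset.univ.filter (fun i => δ ≤ a i),
          R * (a i ^ 2 / ((nof K (F i) (F i) : ℝ) - 1)) := Finset.sum_le_sum hR0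
    _ ≤ ∑ i, R * (a i ^ 2 / ((nof K (F i) (F i) : ℝ) - 1)) := by
        refine Finset.sum_le_sum_of_subset_of_nonneg (Finset.filter_subset _ _) fun i _ _ => ?_
        have h8 : (1 : ℝ) ≤ nof K (F i) (F i) := by exact_mod_cast hnof i
        have h10 : (0 : ℝ) ≤ (nof K (F i) (F i) : ℝ) - 1 := by linarith
        positivity
    _ = R * ∑ i, a i ^ 2 / ((nof K (F i) (F i) : ℝ) - 1) := by rw [Finset.mul_sum]
    _ ≤ R * ((∫ g, ‖f g - ∫ g, f g ∂μ‖ ^ 2 ∂μ) + 1) :=
        mul_le_mul_of_nonneg_left h4 (Nat.cast_nonneg _)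

end

end Pool.Agent.T2H24.AF
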