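import Pool.Agent.TH553.ST.Ext
import Pool.Agent.H126U.Nat1

set_option autoImplicit false
set_option linter.unusedSectionVars false
set_option linter.unusedVariables false

/-!
# Natural means over the homomorphisms to prime fields
-/

namespace Pool.Agent.T2H24.AF

open Complex Filter Topology ComplexConjugate NumberField IsDedekindDomain MeasureTheory
  Pool.Agent.W540.BE Pool.Agent.TH553.RS Pool.Agent.TH553.ST Pool.Agent.H341R2
  Pool.Agent.W353.TP Pool.Agent.H126U
open scoped TensorProduct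

theorem pi_top : Tendsto (fun X : ℕ => (Nat.primeCounting X : ℝ)) atTop atTop :=
  tendsto_natCast_atTop_atTop.comp Nat.tendsto_primeCounting

/-- finitely many primes do not matter -/
theorem fin_diff {a b : Nat.Primes → ℝ} (h : {p | a p ≠ b p}.Finite) :
    Tendsto (fun X : ℕ => (∑ p ∈ PX X, a p) / (Nat.primeCounting X : ℝ) -
      (∑ p ∈ PX X, b p) / (Nat.primeCounting X : ℝ)) atTop (𝓝 0) := by
  classical
  have h1 : Tendsto (fun X : ℕ => (∑ p ∈ h.toFinset, |a p - b p|) / (Nat.primeCounting X : ℝ)) atTop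
      (𝓝 0) := tendsto_const_nhds.div_atTop pi_top
  refine squeeze_zero_norm (fun X => ?_) h1
  have h0 : (0 : ℝ) ≤ Nat.primeCounting X := Nat.cast_nonneg _
  rw [← sub_div, Real.norm_eq_abs, abs_div, abs_of_nonneg h0, ← Finset.sum_sub_distrib]
  refine div_le_div_of_nonneg_right ?_ h0
  refine (Finset.abs_sum_le_sum_abs _ _).trans ?_
  rw [← Finset.sum_filter_add_sum_filter_not (PX X) (fun p => a p ≠ b p)]
  have h2 : ∑ p ∈ (PX X).filter (fun p => ¬ a p ≠ b p), |a p - b p| = 0 := by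
    refine Finset.sum_eq_zero fun p hp => ?_
    have := (Finset.mem_filter.1 hp).2
    push Not at this
    rw [this, sub_self, abs_zero]
  rw [h2, add_zero]
  refine Finset.sum_le_sum_of_subset_of_nonneg ?_ fun _ _ _ => abs_nonneg _
  intro p hp
  rw [Set.Finite.mem_toFinset]
  exact (Finset.mem_filter.1 hp).2

section

variable {K : Type} [Field K] [NumberField K]

/-- the natural mean -/
noncomputable def nh (φ : HX K → ℝ) (X : ℕ) : ℝ :=
  (∑ p ∈ PX X, ∑ u : 𝓞 K →+* ZMod (p : ℕ), φ ⟨p, u⟩) / (Nat.primeCounting X : ℝ)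

theorem nh_add (φ ψ : HX K → ℝ) (X : ℕ) : nh (fun u => φ u + ψ u) X = nh φ X + nh ψ X := by
  unfold nh
  simp only [Finset.sum_add_distrib, add_div]

theorem nh_mul (c : ℝ) (φ : HX K → ℝ) (X : ℕ) : nh (fun u => c * φ u) X = c * nh φ X := by
  unfold nh
  simp only [← Finset.mul_sum, mul_div_assoc]

theorem nh_sub (φ ψ : HX K → ℝ) (X : ℕ) : nh (fun u => φ u - ψ u) X = nh φ X - nh ψ X := by
  unfold nh
  simp only [Finset.sum_sub_distrib, sub_div]

theorem nh_sum {ι : Type*} (s : Finset ι) (φ : ι → HX K → ℝ) (X : ℕ) :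
    nh (fun u => ∑ i ∈ s, φ i u) X = ∑ i ∈ s, nh (φ i) X := by
  classical
  induction s using Finset.induction_on with
  | empty =>
    unfold nh
    simp
  | insert i s hi ih =>
    simp only [Finset.sum_insert hi]
    rw [nh_add, ih]

theorem nh_nonneg {φ : HX K → ℝ} (h : ∀ u, 0 ≤ φ u) (X : ℕ) : 0 ≤ nh φ X := by
  unfold nh
  exact div_nonneg (Finset.sum_nonneg fun p _ => Finset.sum_nonneg fun u _ => h _)
    (Nat.cast_nonneg _)

theorem nh_one : Tendsto (nh fun _ : HX K => 1) atTop (𝓝 1) := by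
  refine (pit' K).congr fun X => ?_
  unfold nh
  congr 1
  refine Finset.sum_congr rfl fun p _ => ?_
  rw [Finset.sum_const, nsmul_eq_mul, mul_one, Finset.card_univ, card_hom_eq,
    Pool.Agent.H921R2.TatePole.R_eq_hc]

theorem nh_bd {φ : HX K → ℝ} {B : ℝ} (h : ∀ u, |φ u| ≤ B) (X : ℕ) :
    |nh φ X| ≤ Module.finrank ℚ K * B := by
  have hB0 : 0 ≤ B := (abs_nonneg _).trans (h ((sysH K).nonempty.some))
  rcases Nat.eq_zero_or_pos (Nat.primeCounting X) with h0 | h0
  · unfold nh
    rw [h0]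
    simp only [Nat.cast_zero, div_zero, abs_zero]
    positivity
  have h0' : (0 : ℝ) < Nat.primeCounting X := by exact_mod_cast h0
  unfold nh
  rw [abs_div, abs_of_pos h0', div_le_iff₀ h0']
  refine (Finset.abs_sum_le_sum_abs _ _).trans ?_
  have h1 : ∀ p ∈ PX X, |∑ u : 𝓞 K →+* ZMod (p : ℕ), φ ⟨p, u⟩| ≤ Module.finrank ℚ K * B := by
    intro p _
    refine (Finset.abs_sum_le_sum_abs _ _).trans ?_
    refine (Finset.sum_le_sum fun u _ => h _).trans ?_
    rw [Finset.sum_const, nsmul_eq_mul, Finset.card_univ]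
    refine mul_le_mul_of_nonneg_right ?_ hB0
    exact_mod_cast card_hom_le (K := K) p
  refine (Finset.sum_le_sum h1).trans ?_
  rw [Finset.sum_const, nsmul_eq_mul, card_PX, mul_comm]

theorem nh_congr {φ ψ : HX K → ℝ} (h : {u | φ u ≠ ψ u}.Finite) :
    Tendsto (fun X => nh φ X - nh ψ X) atTop (𝓝 0) := by
  refine fin_diff ((h.image Sigma.fst).subset fun p hp => ?_)
  by_contra hcon
  refine hp (Finset.sum_congr rfl fun u _ => ?_)
  by_contra h1
  exact hcon ⟨⟨p, u⟩, h1, rfl⟩

theorem upto_eq (X : ℕ) : upto K X = VX K X := by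
  ext v
  rw [mem_upto, mem_VX]
  rfl

/-- averages over the primes and means over the homomorphisms -/
theorem mn_nh {g : HeightOneSpectrum (𝓞 K) → ℝ} {B : ℝ} (hg : ∀ v, |g v| ≤ B) :
    Tendsto (fun X => mn g X - nh (fun u => g (kr u)) X) atTop (𝓝 0) := by
  have hB0 : 0 ≤ B := by
    obtain ⟨v⟩ := (sysK K).nonempty
    exact (abs_nonneg _).trans (hg v)
  have h1 : Tendsto (fun X : ℕ => (∑ v ∈ VX K X, g v) / (Nat.primeCounting X : ℝ) -
      nh (fun u => g (kr u)) X) atTop (𝓝 0) := by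
    have h2 := sqrt_small (Module.finrank ℚ K * B)
    refine squeeze_zero_norm (fun X => ?_) h2
    have h3 := sum_low g hg X
    have h0 : (0 : ℝ) ≤ Nat.primeCounting X := Nat.cast_nonneg _
    unfold nh
    rw [← sub_div, Real.norm_eq_abs, abs_div, abs_of_nonneg h0]
    refine div_le_div_of_nonneg_right ?_ h0
    have e1 : ∑ p ∈ PX X, ∑ u : 𝓞 K →+* ZMod (p : ℕ), g (kr ⟨p, u⟩) = ∑ p ∈ PX X, low g p :=
      Finset.sum_congr rfl fun p _ => (low_kerPrime g p).symm
    rw [e1]
    refine h3.trans (le_of_eq ?_)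
    ring
  have h4 : Tendsto (fun X : ℕ => mn g X - (∑ v ∈ VX K X, g v) / (Nat.primeCounting X : ℝ)) atTop
      (𝓝 0) := by
    have h5 : Tendsto (fun X : ℕ => B * |1 - ((VX K X).card : ℝ) / (Nat.primeCounting X : ℝ)|)
        atTop (𝓝 0) := by
      have h6 := ((card_VX (K := K)).const_sub 1).abs.const_mul B
      simpa using h6
    refine squeeze_zero_norm' ?_ h5
    filter_upwards [card_ev (K := K)] with X hX
    rw [upto_eq] at hX
    have e1 : mn g X - (∑ v ∈ VX K X, g v) / (Nat.primeCounting X : ℝ) =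
        mn g X * (1 - ((VX K X).card : ℝ) / (Nat.primeCounting X : ℝ)) := by
      unfold mn
      rw [upto_eq, smul_eq_mul]
      field_simp
    rw [e1, norm_mul, Real.norm_eq_abs, Real.norm_eq_abs]
    refine mul_le_mul_of_nonneg_right ?_ (abs_nonneg _)
    unfold mn
    rw [upto_eq, smul_eq_mul, abs_mul, abs_of_nonneg (by positivity)]
    refine inv_mul_le_of_le_mul₀ (Nat.cast_nonneg _) hB0 ?_
    refine (Finset.abs_sum_le_sum_abs _ _).trans ?_
    refine (Finset.sum_le_sum fun v _ => hg v).trans ?_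
    rw [Finset.sum_const, nsmul_eq_mul]
  have h7 := h4.add h1
  rw [add_zero] at h7
  refine h7.congr fun X => ?_
  ring

end

section

variable {K F : Type} [Field K] [NumberField K] [Field F] [NumberField F] [Algebra K F]
  {F' : Type} [Field F'] [NumberField F'] [Algebra K F']

theorem nh_push (h : HX F → ℝ) (X : ℕ) : nh h X = nh (push K h) X := by
  unfold nh
  congr 1
  exact Finset.sum_congr rfl fun p _ => (sum_push h p).symm

theorem nh_cnt : Tendsto (nh (cnt K F)) atTop (𝓝 1) := by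
  refine (nh_one (K := F)).congr fun X => ?_
  exact nh_push _ X

theorem fin_dvd {N : ℤ} (hN : N ≠ 0) : {p : Nat.Primes | ((p : ℕ) : ℤ) ∣ N}.Finite := by
  have h1 : (N.natAbs.primeFactors : Set ℕ).Finite := Finset.finite_toSet _
  refine (h1.preimage (f := fun p : Nat.Primes => (p : ℕ)) ?_).subset ?_
  · exact fun a _ b _ h => Subtype.ext h
  · intro p hp
    simp only [Set.mem_preimage, Finset.mem_coe, Nat.mem_primeFactors]
    refine ⟨p.2, ?_, Int.natAbs_ne_zero.2 hN⟩
    exact Int.natCast_dvd.1 hp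

theorem nh_cnt2 : Tendsto (nh fun u : HX K => cnt K F u * cnt K F' u) atTop
    (𝓝 (nof K F F')) := by
  classical
  obtain ⟨N, hN, h⟩ := pairs_sum K F F'
  have h1 := fin_diff (a := fun p : Nat.Primes => ∑ u : 𝓞 K →+* ZMod (p : ℕ),
      cnt K F ⟨p, u⟩ * cnt K F' ⟨p, u⟩)
    (b := fun p : Nat.Primes => ∑ m : MaximalSpectrum (F ⊗[K] F'),
      ∑ _Ψ : 𝓞 (Fac K F F' m) →+* ZMod (p : ℕ), (1 : ℝ)) ((fin_dvd hN).subset fun p hp => by
        by_contra hcon
        refine hp ?_
        rw [← h p hcon fun _ _ => 1]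
        refine Finset.sum_congr rfl fun u _ => ?_
        unfold cnt push
        rw [Finset.sum_mul_sum]
        simp only [mul_one])
  have h2 : Tendsto (fun X : ℕ => (∑ p ∈ PX X, ∑ m : MaximalSpectrum (F ⊗[K] F'),
      ∑ _Ψ : 𝓞 (Fac K F F' m) →+* ZMod (p : ℕ), (1 : ℝ)) / (Nat.primeCounting X : ℝ)) atTop
      (𝓝 (nof K F F')) := by
    have h3 : Tendsto (fun X : ℕ => ∑ m : MaximalSpectrum (F ⊗[K] F'),
        nh (fun _ : HX (Fac K F F' m) => 1) X) atTop
        (𝓝 (∑ m : MaximalSpectrum (F ⊗[K] F'), 1)) :=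
      tendsto_finsetSum _ fun m _ => nh_one
    have h4 : (∑ m : MaximalSpectrum (F ⊗[K] F'), (1 : ℝ)) = nof K F F' := by
      unfold nof
      rw [Finset.sum_const, nsmul_eq_mul, mul_one, Finset.card_univ, Nat.card_eq_fintype_card]
    rw [h4] at h3
    refine h3.congr fun X => ?_
    unfold nh
    rw [← Finset.sum_div, Finset.sum_comm]
  have h5 := h1.add h2
  rw [zero_add] at h5
  refine h5.congr fun X => ?_
  unfold nh
  ring

end

end Pool.Agent.T2H24.AF
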