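import Pool.Agent.T2H24.AF.Cpt

set_option autoImplicit false
set_option linter.unusedSectionVars false
set_option linter.unusedVariables false

/-!
# The number of exceptions, uniformly for a compact set of class functions
-/

namespace Pool.Agent.T2H24.AF

open Complex Filter Topology ComplexConjugate NumberField IsDedekindDomain MeasureTheory
  Pool.Agent.W540.BE Pool.Agent.TH553.RS Pool.Agent.TH553.ST Pool.Agent.H341R2
  Pool.Agent.W353.TP Pool.Agent.H126U
open scoped TensorProduct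

theorem card_max {R : Type} [CommRing R] (h : IsField R) : Nat.card (MaximalSpectrum R) = 1 := by
  let _ := h.toField
  have h1 : Unique (MaximalSpectrum R) := by
    refine ⟨⟨⟨⊥, Ideal.bot_isMaximal⟩⟩, fun m => ?_⟩
    apply MaximalSpectrum.ext
    rcases eq_bot_or_eq_top m.asIdeal with h2 | h2
    · exact h2
    · exact absurd h2 m.isMaximal.ne_top
  exact Nat.card_unique

section

variable {K : Type} [Field K] [NumberField K]
variable {G : Type} [Group G] [TopologicalSpace G] [IsTopologicalGroup G] [CompactSpace G]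
  [MeasurableSpace G] [BorelSpace G] {μ : Measure G} [IsProbabilityMeasure μ]

theorem mn_close {F : Type} [Field F] [NumberField F] {y : HeightOneSpectrum (𝓞 F) → G}
    {f h : G → ℂ} {η : ℝ} (hη : 0 ≤ η) (hfh : ∀ g, ‖f g - h g‖ ≤ η) (X : ℕ) :
    ‖mn (fun w => f (y w)) X - mn (fun w => h (y w)) X‖ ≤ η :=
  mn_sub_le (fun v => hfh _) hη X

end

section

variable {G : Type} [Group G] [TopologicalSpace G] [IsTopologicalGroup G] [CompactSpace G]
  [MeasurableSpace G] [BorelSpace G] {μ : Measure G} [IsProbabilityMeasure μ]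

/-- **The number of exceptions** -/
theorem count_all {𝒞 : Set C(G, ℂ)} (h𝒞 : IsCompact 𝒞)
    (hcl : ∀ f ∈ 𝒞, ∀ g h, f (h * g * h⁻¹) = f g) (R : ℕ) {δ : ℝ} (hδ : 0 < δ) :
    ∃ B : ℕ, ∀ (K : Type) [Field K] [NumberField K] (x : HeightOneSpectrum (𝓞 K) → G)
      (ι : Type) [Fintype ι] (F : ι → Type) [∀ i, Field (F i)] [∀ i, NumberField (F i)]
      [∀ i, Algebra K (F i)] (y : ∀ i, HeightOneSpectrum (𝓞 (F i)) → G),
      (∀ f : G → ℝ, Continuous f → (∀ g h, f (h * g * h⁻¹) = f g) →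
        Tendsto (mn fun v => f (x v)) atTop (𝓝 (∫ g, f g ∂μ))) →
      (∀ i, BC x (y i)) → (∀ i j, i ≠ j → nof K (F i) (F j) = 1) →
      (∀ i, nof K (F i) (F i) ≤ R) →
      ∀ᶠ X in atTop,
        Nat.card {i // ∃ f ∈ 𝒞, δ ≤ ‖mn (fun w => f (y i w)) X - ∫ g, f g ∂μ‖} ≤ B := by
  classical
  obtain ⟨t, ht1, ht2, ht3⟩ := h𝒞.finite_cover_balls (e := δ / 4) (by linarith)
  set b : C(G, ℂ) → ℝ := fun f => R * ((∫ g, ‖f g - ∫ g, f g ∂μ‖ ^ 2 ∂μ) + 1) / (δ / 2) ^ 2
    with hb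
  have hb0 : ∀ f, 0 ≤ b f := by
    intro f
    have : 0 ≤ ∫ g, ‖f g - ∫ g, f g ∂μ‖ ^ 2 ∂μ := integral_nonneg fun g => by positivity
    rw [hb]
    positivity
  refine ⟨⌈∑ f ∈ ht2.toFinset, b f⌉₊, ?_⟩
  intro K _ _ x ι _ F _ _ _ y hx hy hd hR
  have h1 : ∀ᶠ X in atTop, ∀ f ∈ ht2.toFinset,
      (Nat.card {i // δ / 2 ≤ ‖mn (fun w => f (y i w)) X - ∫ g, f g ∂μ‖} : ℝ) ≤ b f := by
    rw [Finset.eventually_all]
    intro f hf
    exact count_one hx hy hd hR f.continuous (hcl f (ht1 ((Set.Finite.mem_toFinset _).1 hf)))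
      (half_pos hδ)
  filter_upwards [h1] with X hX
  have hint : ∀ f : C(G, ℂ), Integrable f μ := fun f =>
    f.continuous.integrable_of_hasCompactSupport (HasCompactSupport.of_compactSpace _)
  have hsub : (Finset.univ.filter fun i => ∃ f ∈ 𝒞, δ ≤
      ‖mn (fun w => f (y i w)) X - ∫ g, f g ∂μ‖) ⊆ ht2.toFinset.biUnion fun h =>
        Finset.univ.filter fun i => δ / 2 ≤ ‖mn (fun w => h (y i w)) X - ∫ g, h g ∂μ‖ := by
    intro i hi
    obtain ⟨f, hf, hfδ⟩ := (Finset.mem_filter.1 hi).2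
    obtain ⟨h, hh, hfh⟩ := Set.mem_iUnion₂.1 (ht3 hf)
    rw [Finset.mem_biUnion]
    refine ⟨h, (Set.Finite.mem_toFinset _).2 hh, Finset.mem_filter.2 ⟨Finset.mem_univ _, ?_⟩⟩
    have h2 : ∀ g, ‖f g - h g‖ ≤ δ / 4 := fun g => by
      have h3 : dist f h < δ / 4 := hfh
      have h4 := ContinuousMap.dist_apply_le_dist (f := f) (g := h) g
      rw [dist_eq_norm] at h4
      exact h4.trans h3.le
    have h3 := mn_close (F := F i) (y := y i) (f := f) (h := h) (by linarith : (0 : ℝ) ≤ δ / 4) h2 X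
    have h4 : ‖(∫ g, f g ∂μ) - ∫ g, h g ∂μ‖ ≤ δ / 4 := by
      rw [← integral_sub (hint f) (hint h)]
      have h5 := norm_integral_le_of_norm_le_const (μ := μ) (f := fun g => f g - h g)
        (C := δ / 4) (Eventually.of_forall h2)
      simpa using h5
    have e1 : mn (fun w => f (y i w)) X - ∫ g, f g ∂μ =
        (mn (fun w => f (y i w)) X - mn (fun w => h (y i w)) X) +
          (mn (fun w => h (y i w)) X - ∫ g, h g ∂μ) - ((∫ g, f g ∂μ) - ∫ g, h g ∂μ) := by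
      ring
    have h5 : ‖mn (fun w => f (y i w)) X - ∫ g, f g ∂μ‖ ≤ δ / 4 +
        ‖mn (fun w => h (y i w)) X - ∫ g, h g ∂μ‖ + δ / 4 := by
      rw [e1]
      refine (norm_sub_le _ _).trans (add_le_add ((norm_add_le _ _).trans
        (add_le_add h3 le_rfl)) h4)
    linarith
  have h6 : Nat.card {i // ∃ f ∈ 𝒞, δ ≤ ‖mn (fun w => f (y i w)) X - ∫ g, f g ∂μ‖} =
      (Finset.univ.filter fun i => ∃ f ∈ 𝒞, δ ≤
        ‖mn (fun w => f (y i w)) X - ∫ g, f g ∂μ‖).card := by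
    rw [Nat.card_eq_fintype_card, Fintype.card_subtype]
  rw [h6]
  have h7 := (Finset.card_le_card hsub).trans Finset.card_biUnion_le
  have h8 : ((∑ h ∈ ht2.toFinset, (Finset.univ.filter fun i => δ / 2 ≤
      ‖mn (fun w => h (y i w)) X - ∫ g, h g ∂μ‖).card : ℕ) : ℝ) ≤ ∑ h ∈ ht2.toFinset, b h := by
    push_cast
    refine Finset.sum_le_sum fun h hh => ?_
    have h9 := hX h hh
    rw [Nat.card_eq_fintype_card, Fintype.card_subtype] at h9
    exact h9
  have h9 : ((∑ h ∈ ht2.toFinset, (Finset.univ.filter fun i => δ / 2 ≤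
      ‖mn (fun w => h (y i w)) X - ∫ g, h g ∂μ‖).card : ℕ) : ℝ) ≤
      (⌈∑ f ∈ ht2.toFinset, b f⌉₊ : ℕ) := h8.trans (Nat.le_ceil _)
  exact h7.trans (by exact_mod_cast h9)

end

end Pool.Agent.T2H24.AF
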